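import Mathlib

set_option autoImplicit false

namespace Pool.Agent.MP_8400ad_co

variable {V : Type}

/-- `T` is the vertex set of a shortest path from `x` to `y`. -/
def IsGeodesic (G : SimpleGraph V) (x y : V) (T : Set V) : Prop :=
  ∃ p : G.Walk x y, p.length = G.dist x y ∧ T = {v | v ∈ p.support}

/-- One geodesic is fixed for every unordered pair of distinct vertices of `S`, and every vertex
lies on one of the fixed geodesics. -/
def IsStrongGeodetic (G : SimpleGraph V) (S : Finset V) : Prop :=
  ∃ P : Sym2 V → Set V,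
    (∀ x ∈ S, ∀ y ∈ S, x ≠ y → IsGeodesic G x y (P s(x, y))) ∧
    ∀ v : V, ∃ x ∈ S, ∃ y ∈ S, x ≠ y ∧ v ∈ P s(x, y)

/-- The strong geodetic number. -/
noncomputable def sg (G : SimpleGraph V) : ℕ :=
  sInf {k | ∃ S : Finset V, S.card = k ∧ IsStrongGeodetic G S}

end Pool.Agent.MP_8400ad_co
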