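import Pool.Agent.MP_8400ad_co.Defs

set_option autoImplicit false

namespace Pool.Agent.MP_8400ad_co

open Finset SimpleGraph

section part1


variable {V : Type} {G : SimpleGraph V}

theorem geo_exists (hG : G.Connected) (x y : V) : ∃ T, IsGeodesic G x y T := by
  obtain ⟨p, hp⟩ := hG.exists_walk_length_eq_dist x y
  exact ⟨_, p, hp, rfl⟩

theorem IsGeodesic.symm {x y : V} {T : Set V} (h : IsGeodesic G x y T) : IsGeodesic G y x T := by
  obtain ⟨p, hp, rfl⟩ := h
  refine ⟨p.reverse, by rw [Walk.length_reverse, hp, SimpleGraph.dist_comm], ?_⟩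
  ext v
  simp

theorem IsGeodesic.left_mem {x y : V} {T : Set V} (h : IsGeodesic G x y T) : x ∈ T := by
  obtain ⟨p, -, rfl⟩ := h
  exact p.start_mem_support

theorem IsGeodesic.right_mem {x y : V} {T : Set V} (h : IsGeodesic G x y T) : y ∈ T :=
  h.symm.left_mem

theorem adj_dist_le (hG : G.Connected) {a b : V} (h : G.Adj a b) (v : V) :
    G.dist a v ≤ G.dist b v + 1 := by
  have h1 := hG.dist_triangle (u := a) (v := b) (w := v)
  rw [dist_eq_one_iff_adj.mpr h] at h1
  omega

theorem walk_one (hG : G.Connected) {x y : V} (p : G.Walk x y) :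
    ∀ v ∈ p.support, G.dist x v + G.dist v y ≤ p.length := by
  induction p with
  | nil =>
    intro v hv
    simp only [Walk.support_nil, List.mem_singleton] at hv
    subst hv
    simp
  | cons h q ih =>
    intro v hv
    rw [Walk.support_cons, List.mem_cons] at hv
    rcases hv with rfl | hv
    · simpa only [SimpleGraph.dist_self, zero_add, Walk.length_cons] using dist_le (Walk.cons h q)
    · have := ih v hv
      have := adj_dist_le hG h v
      rw [Walk.length_cons]
      omega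

theorem walk_two (hG : G.Connected) {x y : V} (p : G.Walk x y) :
    ∀ v ∈ p.support, ∀ w ∈ p.support,
      G.dist x v + G.dist v w + G.dist w y ≤ p.length ∨
        G.dist x w + G.dist v w + G.dist v y ≤ p.length := by
  induction p with
  | nil =>
    intro v hv w hw
    simp only [Walk.support_nil, List.mem_singleton] at hv hw
    subst hv hw
    simp
  | cons h q ih =>
    intro v hv w hw
    have h1 := walk_one hG _ v hv
    have h2 := walk_one hG _ w hw
    rw [Walk.support_cons, List.mem_cons] at hv hw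
    rcases hv with rfl | hv
    · left
      simpa only [SimpleGraph.dist_self, zero_add, Walk.length_cons] using h2
    rcases hw with rfl | hw
    · right
      rw [SimpleGraph.dist_comm (u := v)]
      simpa only [SimpleGraph.dist_self, zero_add, Walk.length_cons] using h1
    have := ih v hv w hw
    have := adj_dist_le hG h v
    have := adj_dist_le hG h w
    rw [Walk.length_cons]
    omega

theorem IsGeodesic.two (hG : G.Connected) {x y v w : V} {T : Set V} (h : IsGeodesic G x y T)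
    (hv : v ∈ T) (hw : w ∈ T) :
    G.dist x v + G.dist v w + G.dist w y ≤ G.dist x y ∨
      G.dist x w + G.dist v w + G.dist v y ≤ G.dist x y := by
  obtain ⟨p, hp, rfl⟩ := h
  rw [← hp]
  exact walk_two hG p v hv w hw

theorem IsGeodesic.one (hG : G.Connected) {x y v : V} {T : Set V} (h : IsGeodesic G x y T)
    (hv : v ∈ T) : G.dist x v + G.dist v y ≤ G.dist x y := by
  obtain ⟨p, hp, rfl⟩ := h
  rw [← hp]
  exact walk_one hG p v hv

theorem geo_through (hG : G.Connected) {x v w y : V}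
    (h : G.dist x v + G.dist v w + G.dist w y ≤ G.dist x y) :
    ∃ T, IsGeodesic G x y T ∧ v ∈ T ∧ w ∈ T := by
  obtain ⟨p, hp⟩ := hG.exists_walk_length_eq_dist x v
  obtain ⟨q, hq⟩ := hG.exists_walk_length_eq_dist v w
  obtain ⟨r, hr⟩ := hG.exists_walk_length_eq_dist w y
  refine ⟨_, ⟨p.append (q.append r), le_antisymm ?_ (dist_le _), rfl⟩, ?_, ?_⟩
  · simp only [Walk.length_append]
    omega
  · simp
  · simp

theorem walk_tail (hG : G.Connected) (S : Finset V) {x y : V} (p : G.Walk x y)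
    (hp : p.length = G.dist x y) :
    (∀ w ∈ p.support, w ∈ S) ∨
      ∃ z, z ∉ S ∧ ∃ T, IsGeodesic G z y T ∧ ∀ w ∈ p.support, w ∈ S ∨ w ∈ T := by
  induction p with
  | @nil u =>
    by_cases hu : u ∈ S
    · left
      simpa using hu
    · exact Or.inr ⟨u, hu, _, ⟨Walk.nil, hp, rfl⟩, fun w hw => Or.inr hw⟩
  | @cons u b c h q ih =>
    by_cases hu : u ∈ S
    · have h1 := adj_dist_le hG h c
      have h2 := dist_le q
      rw [Walk.length_cons] at hp
      rcases ih (by omega) with h3 | ⟨z, hz, T, hT, h3⟩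
      · left
        intro w hw
        rw [Walk.support_cons, List.mem_cons] at hw
        rcases hw with rfl | hw
        · exact hu
        · exact h3 w hw
      · refine Or.inr ⟨z, hz, T, hT, fun w hw => ?_⟩
        rw [Walk.support_cons, List.mem_cons] at hw
        rcases hw with rfl | hw
        · exact Or.inl hu
        · exact h3 w hw
    · exact Or.inr ⟨u, hu, _, ⟨Walk.cons h q, hp, rfl⟩, fun w hw => Or.inr hw⟩

/-- geodesics are fixed for the pairs of `S` and cover `W` up to vertices of `S` -/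
def Good (G : SimpleGraph V) (S : Finset V) (W : Set V) : Prop :=
  ∃ P : Sym2 V → Set V,
    (∀ x ∈ S, ∀ y ∈ S, x ≠ y → IsGeodesic G x y (P s(x, y))) ∧
    ∀ v ∈ W, v ∈ S ∨ ∃ x ∈ S, ∃ y ∈ S, x ≠ y ∧ v ∈ P s(x, y)

theorem exists_system (hG : G.Connected) :
    ∃ P : Sym2 V → Set V, ∀ x y, IsGeodesic G x y (P s(x, y)) := by
  have : ∀ e : Sym2 V, ∃ T, ∀ x y, e = s(x, y) → IsGeodesic G x y T := by
    intro e
    induction e using Sym2.ind with
    | _ a b =>
      obtain ⟨T, hT⟩ := geo_exists hG a b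
      refine ⟨T, fun x y h => ?_⟩
      rcases Sym2.eq_iff.mp h with ⟨rfl, rfl⟩ | ⟨rfl, rfl⟩
      · exact hT
      · exact hT.symm
  choose P hP using this
  exact ⟨P, fun x y => hP _ x y rfl⟩

theorem Good.extend (hG : G.Connected) {S : Finset V} {W T : Set V} (h : Good G S W) {u v : V}
    (hv : v ∈ S) (hT : IsGeodesic G u v T) :
    ∃ S', S ⊆ S' ∧ S'.card ≤ S.card + 1 ∧ Good G S' (W ∪ T) := by
  classical
  obtain ⟨P, hP, hc⟩ := h
  obtain ⟨p, hp, rfl⟩ := hT
  rcases walk_tail hG S p hp with h1 | ⟨z, hz, T, hT, h1⟩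
  · refine ⟨S, Subset.refl _, by omega, P, hP, fun w hw => ?_⟩
    rcases hw with hw | hw
    · exact hc w hw
    · exact Or.inl (h1 w hw)
  · obtain ⟨P0, hP0⟩ := exists_system hG
    have hzv : z ≠ v := fun h => hz (h ▸ hv)
    have key : ∀ x ∈ S, ∀ y ∈ S, z ∉ s(x, y) := by
      intro x hx y hy hm
      rcases Sym2.mem_iff.mp hm with rfl | rfl
      · exact hz hx
      · exact hz hy
    refine ⟨insert z S, subset_insert _ _, card_insert_le _ _,
      fun e => if z ∈ e then (if e = s(z, v) then T else P0 e) else P e, ?_, ?_⟩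
    · intro x hx y hy hxy
      beta_reduce
      by_cases h2 : z ∈ s(x, y)
      · rw [if_pos h2]
        by_cases h3 : s(x, y) = s(z, v)
        · rw [if_pos h3]
          rcases Sym2.eq_iff.mp h3 with ⟨rfl, rfl⟩ | ⟨rfl, rfl⟩
          · exact hT
          · exact hT.symm
        · rw [if_neg h3]
          exact hP0 x y
      · rw [if_neg h2]
        rw [Sym2.mem_iff, not_or] at h2
        exact hP x ((mem_insert.mp hx).resolve_left (Ne.symm h2.1)) y
          ((mem_insert.mp hy).resolve_left (Ne.symm h2.2)) hxy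
    · intro w hw
      rcases hw with hw | hw
      · rcases hc w hw with h2 | ⟨x, hx, y, hy, hxy, h2⟩
        · exact Or.inl (mem_insert_of_mem h2)
        · refine Or.inr ⟨x, mem_insert_of_mem hx, y, mem_insert_of_mem hy, hxy, ?_⟩
          beta_reduce
          rw [if_neg (key x hx y hy)]
          exact h2
      · rcases h1 w hw with h2 | h2
        · exact Or.inl (mem_insert_of_mem h2)
        · refine Or.inr ⟨z, mem_insert_self _ _, v, mem_insert_of_mem hv, hzv, ?_⟩
          beta_reduce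
          rw [if_pos (Sym2.mem_mk_left _ _), if_pos rfl]
          exact h2

theorem Good.sg_le {S : Finset V} (h : Good G S Set.univ) (hS : 1 < S.card) : sg G ≤ S.card := by
  obtain ⟨P, hP, hc⟩ := h
  refine Nat.sInf_le ⟨S, rfl, P, hP, fun v => ?_⟩
  rcases hc v trivial with h1 | h1
  · obtain ⟨y, hy, hne⟩ := exists_mem_ne hS v
    exact ⟨v, h1, y, hy, hne.symm, (hP v h1 y hy hne.symm).left_mem⟩
  · exact h1

/-- A cover by geodesics with ends in `X`; each geodesic in `J` costs one more vertex. -/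
theorem sg_le (hG : G.Connected) {ι : Type} (X : Finset V) (hX : 1 < X.card)
    (I J : Finset ι) (u v : ι → V) (T : ι → Set V) (hu : ∀ i ∈ I, u i ∈ X) (hv : ∀ i ∈ I, v i ∈ X)
    (hne : ∀ i ∈ I, u i ≠ v i) (hT : ∀ i ∈ I, IsGeodesic G (u i) (v i) (T i))
    (hcov : ∀ w, w ∈ X ∨ ∃ i ∈ I, w ∈ T i)
    (hinj : ∀ i ∈ I, i ∉ J → ∀ j ∈ I, j ∉ J → s(u i, v i) = s(u j, v j) → i = j) :
    sg G ≤ X.card + J.card := by
  classical
  obtain ⟨P0, hP0⟩ := exists_system hG
  have base : Good G X {w | w ∈ X ∨ ∃ i ∈ I, i ∉ J ∧ w ∈ T i} := by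
    refine ⟨fun e => if h : ∃ i ∈ I, i ∉ J ∧ s(u i, v i) = e then T h.choose else P0 e, ?_, ?_⟩
    · intro x _ y _ _
      beta_reduce
      by_cases h : ∃ i ∈ I, i ∉ J ∧ s(u i, v i) = s(x, y)
      · rw [dif_pos h]
        obtain ⟨h1, -, h3⟩ := h.choose_spec
        rcases Sym2.eq_iff.mp h3 with ⟨a1, a2⟩ | ⟨a1, a2⟩
        · have := hT _ h1
          rwa [a1, a2] at this
        · have := (hT _ h1).symm
          rwa [a1, a2] at this
      · rw [dif_neg h]
        exact hP0 x y
    · rintro w (hw | ⟨i, hi, hJ, hw⟩)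
      · exact Or.inl hw
      · refine Or.inr ⟨u i, hu i hi, v i, hv i hi, hne i hi, ?_⟩
        have h : ∃ j ∈ I, j ∉ J ∧ s(u j, v j) = s(u i, v i) := ⟨i, hi, hJ, rfl⟩
        beta_reduce
        rw [dif_pos h]
        obtain ⟨h1, h2, h3⟩ := h.choose_spec
        rw [hinj _ h1 h2 i hi hJ h3]
        exact hw
  have step : ∀ K : Finset ι, ∃ S, X ⊆ S ∧ S.card ≤ X.card + K.card ∧
      Good G S {w | w ∈ X ∨ ∃ i ∈ I, (i ∉ J ∨ i ∈ K) ∧ w ∈ T i} := by
    intro K
    induction K using Finset.induction_on with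
    | empty => exact ⟨X, Subset.refl _, by simp, by simpa only [notMem_empty, or_false] using base⟩
    | insert j K hj ih =>
      obtain ⟨S, h1, h2, h3⟩ := ih
      rw [card_insert_of_notMem hj]
      by_cases hjI : j ∈ I
      · obtain ⟨S', a1, a2, P, a3, a4⟩ := h3.extend hG (h1 (hv j hjI)) (hT j hjI)
        refine ⟨S', h1.trans a1, by omega, P, a3, fun w hw => a4 w ?_⟩
        rcases hw with hw | ⟨i, hi, hK, hw⟩
        · exact Or.inl (Or.inl hw)
        · rcases hK with hK | hK
          · exact Or.inl (Or.inr ⟨i, hi, Or.inl hK, hw⟩)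
          · rcases mem_insert.mp hK with rfl | hK
            · exact Or.inr hw
            · exact Or.inl (Or.inr ⟨i, hi, Or.inr hK, hw⟩)
      · obtain ⟨P, a3, a4⟩ := h3
        refine ⟨S, h1, by omega, P, a3, fun w hw => a4 w ?_⟩
        rcases hw with hw | ⟨i, hi, hK, hw⟩
        · exact Or.inl hw
        · refine Or.inr ⟨i, hi, ?_, hw⟩
          rcases hK with hK | hK
          · exact Or.inl hK
          · rcases mem_insert.mp hK with rfl | hK
            · exact absurd hi hjI
            · exact Or.inr hK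
  obtain ⟨S, h1, h2, P, h3, h4⟩ := step J
  refine (Good.sg_le ⟨P, h3, fun w _ => h4 w ?_⟩ (hX.trans_le (card_le_card h1))).trans h2
  rcases hcov w with hw | ⟨i, hi, hw⟩
  · exact Or.inl hw
  · exact Or.inr ⟨i, hi, (em (i ∈ J)).symm, hw⟩

/-- an optimal strong geodetic set exists -/
theorem exists_opt [Fintype V] [Nontrivial V] (hG : G.Connected) :
    ∃ S : Finset V, S.card = sg G ∧ IsStrongGeodetic G S := by
  obtain ⟨P, hP⟩ := exists_system hG
  have : {k | ∃ S : Finset V, S.card = k ∧ IsStrongGeodetic G S}.Nonempty := by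
    refine ⟨_, univ, rfl, P, fun x _ y _ _ => hP x y, fun v => ?_⟩
    obtain ⟨y, hy⟩ := exists_ne v
    exact ⟨v, mem_univ _, y, mem_univ _, hy.symm, (hP v y).left_mem⟩
  exact Nat.sInf_mem this

variable {W : Type} {H : SimpleGraph W}

theorem dist_box (hG : G.Connected) (hH : H.Connected) (p q : V × W) :
    (G.boxProd H).dist p q = G.dist p.1 q.1 + H.dist p.2 q.2 := by
  have h := edist_boxProd (G := G) (H := H) p q
  rw [← ((hG.boxProd hH).preconnected p q).coe_dist_eq_edist,
    ← (hG.preconnected _ _).coe_dist_eq_edist, ← (hH.preconnected _ _).coe_dist_eq_edist] at h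
  exact_mod_cast h

theorem walk_proj {p q : V × W} (γ : (G.boxProd H).Walk p q) :
    ∃ (Q : G.Walk p.1 q.1) (R : H.Walk p.2 q.2), Q.length + R.length = γ.length ∧
      ∀ w ∈ γ.support, w.1 ∈ Q.support ∧ w.2 ∈ R.support := by
  induction γ with
  | nil => exact ⟨Walk.nil, Walk.nil, rfl, by simp⟩
  | @cons a b c h γ ih =>
    obtain ⟨Q, R, h1, h2⟩ := ih
    obtain ⟨a1, a2⟩ := a
    obtain ⟨b1, b2⟩ := b
    rcases boxProd_adj.mp h with ⟨h3, h4⟩ | ⟨h3, h4⟩
    · dsimp only at h3 h4
      subst h4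
      refine ⟨Walk.cons h3 Q, R, by simp only [Walk.length_cons]; omega, fun w hw => ?_⟩
      rw [Walk.support_cons, List.mem_cons] at hw
      rcases hw with rfl | hw
      · exact ⟨Walk.start_mem_support _, R.start_mem_support⟩
      · exact ⟨by simp [(h2 w hw).1], (h2 w hw).2⟩
    · dsimp only at h3 h4
      subst h4
      refine ⟨Q, Walk.cons h3 R, by simp only [Walk.length_cons]; omega, fun w hw => ?_⟩
      rw [Walk.support_cons, List.mem_cons] at hw
      rcases hw with rfl | hw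
      · exact ⟨Q.start_mem_support, Walk.start_mem_support _⟩
      · exact ⟨(h2 w hw).1, by simp [(h2 w hw).2]⟩

theorem IsGeodesic.proj (hG : G.Connected) (hH : H.Connected) {p q : V × W} {T : Set (V × W)}
    (h : IsGeodesic (G.boxProd H) p q T) :
    ∃ T1 T2, IsGeodesic G p.1 q.1 T1 ∧ IsGeodesic H p.2 q.2 T2 ∧
      ∀ w ∈ T, w.1 ∈ T1 ∧ w.2 ∈ T2 := by
  obtain ⟨γ, h1, rfl⟩ := h
  obtain ⟨Q, R, h2, h3⟩ := walk_proj γ
  rw [dist_box hG hH] at h1
  have := dist_le Q
  have := dist_le R
  exact ⟨_, _, ⟨Q, by omega, rfl⟩, ⟨R, by omega, rfl⟩, h3⟩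

end part1

section part2


section count

variable {α β : Type} [LinearOrder β]

/-- pairs of `S` whose images increase -/
def ltp (f : α → β) (S : Finset α) : Finset (α × α) := (S ×ˢ S).filter fun i => f i.1 < f i.2

theorem mem_ltp {f : α → β} {S : Finset α} {i : α × α} :
    i ∈ ltp f S ↔ i.1 ∈ S ∧ i.2 ∈ S ∧ f i.1 < f i.2 := by
  simp [ltp, and_assoc]

theorem ltp_count (f : α → β) (S : Finset α) :
    2 * (ltp f S).card + ((S ×ˢ S).filter fun i => f i.1 = f i.2).card = S.card * S.card := by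
  classical
  have h1 : ((S ×ˢ S).filter fun i => f i.2 < f i.1).card = (ltp f S).card := by
    refine card_bij (fun i _ => i.swap) ?_ ?_ ?_
    · intro i hi
      simp only [mem_filter, mem_product] at hi
      exact mem_ltp.mpr ⟨hi.1.2, hi.1.1, hi.2⟩
    · intro i _ j _ h
      exact Prod.swap_injective h
    · intro i hi
      rw [mem_ltp] at hi
      exact ⟨i.swap, by simp [hi.1, hi.2.1, hi.2.2], rfl⟩
  rw [← card_product, two_mul]
  nth_rewrite 1 [← h1]
  unfold ltp
  simp only [card_filter]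
  rw [← sum_add_distrib, ← sum_add_distrib, card_eq_sum_ones]
  refine sum_congr rfl fun i _ => ?_
  rcases lt_trichotomy (f i.1) (f i.2) with h | h | h
  · simp [h, h.ne, h.not_gt]
  · simp [h]
  · simp [h, h.ne', h.not_gt]

theorem ltp_id (X : Finset β) : 2 * (ltp id X).card + X.card = X.card * X.card := by
  have := ltp_count id X
  rwa [show ((X ×ˢ X).filter fun i => id i.1 = id i.2) = X.diag from by
    ext i
    simp only [mem_filter, mem_product, mem_diag, id]
    exact ⟨fun h => ⟨h.1.1, h.2⟩, fun h => ⟨⟨h.1, h.2 ▸ h.1⟩, h.2⟩⟩, diag_card] at this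

theorem eqp_count (f : α → β) (S : Finset α) :
    3 * S.card ≤ ((S ×ˢ S).filter fun i => f i.1 = f i.2).card + 2 * (S.image f).card := by
  classical
  have h1 : ((S ×ˢ S).filter fun i => f i.1 = f i.2).card =
      ∑ x ∈ S.image f, (S.filter fun a => f a = x).card * (S.filter fun a => f a = x).card := by
    rw [card_eq_sum_card_fiberwise (f := fun i : α × α => f i.1) (t := S.image f)]
    · refine sum_congr rfl fun x _ => ?_
      rw [← card_product]
      congr 1
      ext i
      simp only [mem_filter, mem_product]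
      constructor
      · rintro ⟨⟨⟨a, b⟩, c⟩, d⟩
        exact ⟨⟨a, d⟩, b, c ▸ d⟩
      · rintro ⟨⟨a, d⟩, b, c⟩
        exact ⟨⟨⟨a, b⟩, d.trans c.symm⟩, d⟩
    · intro i hi
      simp only [coe_filter, mem_product, Set.mem_ofPred_eq] at hi
      exact mem_coe.mpr (mem_image_of_mem _ hi.1.1)
  rw [h1, card_eq_sum_card_image f S, mul_sum, card_eq_sum_ones (S.image f), mul_sum,
    ← sum_add_distrib]
  refine sum_le_sum fun x _ => ?_
  generalize (S.filter fun a => f a = x).card = n
  rcases n with _ | _ | n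
  · simp
  · simp
  · nlinarith only []

theorem card_sub_image {γ : Type} [DecidableEq γ] (ρ : α → γ) {A D : Finset α} (h : A ⊆ D) :
    A.card + (D.image ρ).card ≤ D.card + (A.image ρ).card := by
  classical
  have h1 : D.image ρ ⊆ A.image ρ ∪ (D \ A).image ρ := by
    rw [← image_union, union_sdiff_of_subset h]
  have h2 := (card_le_card h1).trans (card_union_le _ _)
  have h3 := card_image_le (s := D \ A) (f := ρ)
  have h4 := card_sdiff_add_card_eq_card h
  omega

end count

variable {V W : Type} {G : SimpleGraph V} {H : SimpleGraph W}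

/-- the fixed geodesics of an optimal set in the product -/
structure Sys (G : SimpleGraph V) (H : SimpleGraph W) (S : Finset (V × W))
    (P : Sym2 (V × W) → Set (V × W)) : Prop where
  geo : ∀ x ∈ S, ∀ y ∈ S, x ≠ y → IsGeodesic (G.boxProd H) x y (P s(x, y))
  cov : ∀ v, ∃ x ∈ S, ∃ y ∈ S, x ≠ y ∧ v ∈ P s(x, y)

open Classical in
/-- the pairs whose geodesic meets the layer `h` -/
noncomputable def lay [LinearOrder V] (S : Finset (V × W)) (P : Sym2 (V × W) → Set (V × W))
    (h : W) : Finset ((V × W) × (V × W)) :=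
  (ltp Prod.fst S).filter fun i => ∃ w ∈ P s(i.1, i.2), w.2 = h

theorem mem_lay [LinearOrder V] {S : Finset (V × W)} {P : Sym2 (V × W) → Set (V × W)} {h : W}
    {i : (V × W) × (V × W)} :
    i ∈ lay S P h ↔ (i.1 ∈ S ∧ i.2 ∈ S ∧ i.1.1 < i.2.1) ∧ ∃ w ∈ P s(i.1, i.2), w.2 = h := by
  simp only [lay, mem_filter, mem_ltp]

/-- projection of a pair -/
def pr (i : (V × W) × (V × W)) : V × V := (i.1.1, i.2.1)

theorem pr_ext {i j : (V × W) × (V × W)} (e : pr i = pr j) (a : i.1.2 = j.1.2)
    (b : i.2.2 = j.2.2) : i = j :=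
  Prod.ext (Prod.ext (Prod.mk.inj e).1 a) (Prod.ext (Prod.mk.inj e).2 b)

theorem layer_le [LinearOrder V] [Nontrivial V] (hG : G.Connected) (hH : H.Connected)
    {S : Finset (V × W)} {P : Sym2 (V × W) → Set (V × W)} (hS : Sys G H S P) (h : W)
    (J : Finset ((V × W) × (V × W)))
    (hinj : ∀ i ∈ lay S P h, i ∉ J → ∀ j ∈ lay S P h, j ∉ J → pr i = pr j → i = j) :
    sg G ≤ (S.image Prod.fst).card + J.card := by
  have h1 : ∀ i : (V × W) × (V × W), ∃ T, i ∈ lay S P h →
      IsGeodesic G i.1.1 i.2.1 T ∧ ∀ w ∈ P s(i.1, i.2), w.1 ∈ T := by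
    intro i
    by_cases hi : i ∈ lay S P h
    · obtain ⟨⟨a, b, c⟩, -⟩ := mem_lay.mp hi
      obtain ⟨T, _, h2, -, h3⟩ := (hS.geo _ a _ b fun e => c.ne (e ▸ rfl)).proj hG hH
      exact ⟨T, fun _ => ⟨h2, fun w hw => (h3 w hw).1⟩⟩
    · exact ⟨∅, fun h => absurd h hi⟩
  choose T hT using h1
  have hcov : ∀ v, v ∈ S.image Prod.fst ∨ ∃ i ∈ lay S P h, v ∈ T i := by
    intro v
    obtain ⟨x, hx, y, hy, hxy, hv⟩ := hS.cov (v, h)
    rcases lt_trichotomy x.1 y.1 with c | c | c
    · have hi : (x, y) ∈ lay S P h := mem_lay.mpr ⟨⟨hx, hy, c⟩, _, hv, rfl⟩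
      exact Or.inr ⟨_, hi, (hT _ hi).2 _ hv⟩
    · obtain ⟨T1, _, h2, -, h3⟩ := (hS.geo _ hx _ hy hxy).proj hG hH
      have h4 := h2.one hG (h3 _ hv).1
      rw [← c, dist_self] at h4
      have h5 : x.1 = v := hG.dist_eq_zero_iff.mp (by dsimp only at h4; omega)
      exact Or.inl (mem_image.mpr ⟨x, hx, h5⟩)
    · rw [Sym2.eq_swap] at hv
      have hi : (y, x) ∈ lay S P h := mem_lay.mpr ⟨⟨hy, hx, c⟩, _, hv, rfl⟩
      exact Or.inr ⟨_, hi, (hT _ hi).2 _ hv⟩
  have hX : 1 < (S.image Prod.fst).card := by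
    have two : ∀ i ∈ lay S P h, 1 < (S.image Prod.fst).card := fun i hi => by
      obtain ⟨⟨a, b, c⟩, -⟩ := mem_lay.mp hi
      exact one_lt_card.mpr ⟨_, mem_image_of_mem _ a, _, mem_image_of_mem _ b, c.ne⟩
    obtain ⟨v, v', hne⟩ := exists_pair_ne V
    rcases hcov v with a | ⟨i, hi, -⟩
    · rcases hcov v' with b | ⟨i, hi, -⟩
      · exact one_lt_card.mpr ⟨_, a, _, b, hne⟩
      · exact two i hi
    · exact two i hi
  refine sg_le hG _ hX (lay S P h) J (fun i => i.1.1) (fun i => i.2.1) T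
    (fun i hi => mem_image_of_mem _ (mem_lay.mp hi).1.1)
    (fun i hi => mem_image_of_mem _ (mem_lay.mp hi).1.2.1)
    (fun i hi => (mem_lay.mp hi).1.2.2.ne) (fun i hi => (hT i hi).1) hcov ?_
  intro i hi a j hj b e
  have c1 := (mem_lay.mp hi).1.2.2
  have c2 := (mem_lay.mp hj).1.2.2
  rcases Sym2.eq_iff.mp e with ⟨e1, e2⟩ | ⟨e1, e2⟩
  · exact hinj i hi a j hj b (Prod.ext e1 e2)
  · rw [e1, e2] at c1
    exact absurd c1 c2.not_gt

theorem layer_image [LinearOrder V] [Nontrivial V] (hG : G.Connected) (hH : H.Connected)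
    {S : Finset (V × W)} {P : Sym2 (V × W) → Set (V × W)} (hS : Sys G H S P) (h : W) :
    sg G + ((lay S P h).image pr).card ≤ (S.image Prod.fst).card + (lay S P h).card := by
  classical
  obtain ⟨u, h1, h2, h3⟩ := exists_subset_injOn_image_eq_of_surjOn (f := pr)
    (lay S P h : Set ((V × W) × (V × W))) ((lay S P h).image pr) (by
      rw [coe_image]
      exact Set.surjOn_image _ _)
  have h4 : u ⊆ lay S P h := h1
  have h5 := layer_le hG hH hS h (lay S P h \ u) fun i hi a j hj b e =>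
    h2 (by simpa [hi] using a) (by simpa [hj] using b) e
  have h6 := card_sdiff_add_card_eq_card h4
  rw [← h3, card_image_of_injOn h2]
  omega

theorem arith {g s k a : ℕ} (hak : a ≤ k) (hs : k + a ≤ s)
    (h : 4 * g + 3 * s + k * k + a ≤ s * s + 7 * k + a * a) : g ≤ max s (s ^ 2 / 4) := by
  by_cases c : k = a ∨ 4 ≤ k + a
  · refine le_max_of_le_right ((Nat.le_div_iff_mul_le (by norm_num)).mpr ?_)
    obtain ⟨b, rfl⟩ := Nat.exists_eq_add_of_le hak
    rcases c with c | c
    · obtain rfl : b = 0 := by omega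
      linarith only [hs, h]
    · linarith only [Nat.mul_le_mul_left b c, hs, h]
  · have h12 : 4 * g + 3 * s ≤ s * s + 12 := by
      have hk : k ≤ 3 := by omega
      have ha : a ≤ 1 := by omega
      interval_cases k <;> interval_cases a <;> omega
    by_cases c2 : 4 ≤ s
    · refine le_max_of_le_right ((Nat.le_div_iff_mul_le (by norm_num)).mpr ?_)
      linarith only [h12, c2]
    · refine le_max_of_le_left ?_
      have hk : k ≤ 3 := by omega
      have ha : a ≤ 1 := by omega
      have hs : s ≤ 3 := by omega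
      interval_cases s <;> interval_cases k <;> interval_cases a <;> omega

theorem card_add_le [DecidableEq V] [DecidableEq W] (S : Finset (V × W)) {h h' : W} (hh : h ≠ h') :
    (S.image Prod.fst).card +
      ((S.image Prod.fst).filter fun x => (x, h) ∈ S ∧ (x, h') ∈ S).card ≤ S.card := by
  set X := S.image Prod.fst with hX
  set A := X.filter fun x => (x, h) ∈ S ∧ (x, h') ∈ S with hA
  have f1 := card_filter_add_card_filter_not (s := S) (fun p => p.2 = h' ∧ p.1 ∈ A)
  have f2 : A.card ≤ (S.filter fun p => p.2 = h' ∧ p.1 ∈ A).card :=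
    card_le_card_of_injOn (fun x => (x, h'))
      (fun x hx => mem_filter.mpr ⟨(mem_filter.mp hx).2.2, rfl, hx⟩)
      fun _ _ _ _ e => congrArg Prod.fst e
  have f3 : X ⊆ (S.filter fun p => ¬ (p.2 = h' ∧ p.1 ∈ A)).image Prod.fst := by
    intro x hx
    by_cases hxA : x ∈ A
    · exact mem_image.mpr ⟨(x, h), mem_filter.mpr ⟨(mem_filter.mp hxA).2.1, fun c => hh c.1⟩, rfl⟩
    · obtain ⟨p, hp, rfl⟩ := mem_image.mp hx
      exact mem_image.mpr ⟨p, mem_filter.mpr ⟨hp, fun c => hxA c.2⟩, rfl⟩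
  have f4 := (card_le_card f3).trans card_image_le
  omega

theorem general [Fintype V] [Fintype W] [Nontrivial V] (hG : G.Connected) (hH : H.Connected) :
    sg G ≤ max (sg (G.boxProd H)) (sg (G.boxProd H) ^ 2 / 4) := by
  classical
  let _ : LinearOrder V := LinearOrder.lift' (Fintype.equivFin V) (Fintype.equivFin V).injective
  have := hH.nonempty
  obtain ⟨S, hcard, P, g1, g2⟩ := exists_opt (hG.boxProd hH)
  have hS : Sys G H S P := ⟨g1, g2⟩
  rw [← hcard]
  obtain ⟨⟨h, h'⟩, -, hmax⟩ := exists_max_image (univ : Finset (W × W))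
    (fun e => H.dist e.1 e.2) univ_nonempty
  have hmax' : ∀ i j, H.dist i j ≤ H.dist h h' := fun i j => hmax (i, j) (mem_univ _)
  by_cases hh : h = h'
  · refine le_max_of_le_left ?_
    have hsub : ∀ i j : W, i = j := fun i j => by
      have := hmax' i j
      rw [hh, dist_self] at this
      exact hH.dist_eq_zero_iff.mp (by omega)
    have := layer_le hG hH hS h ∅ fun i _ _ j _ _ e =>
      pr_ext e (hsub _ _) (hsub _ _)
    have := card_image_le (s := S) (f := Prod.fst)
    simp only [card_empty] at *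
    omega
  set X := S.image Prod.fst with hX
  set A := X.filter fun x => (x, h) ∈ S ∧ (x, h') ∈ S with hA
  have b1 := layer_image hG hH hS h
  have b2 := layer_image hG hH hS h'
  have hsub : lay S P h ∪ lay S P h' ⊆ ltp Prod.fst S :=
    union_subset (fun _ hi => mem_ltp.mpr (mem_lay.mp hi).1)
      fun _ hi => mem_ltp.mpr (mem_lay.mp hi).1
  have c1 := card_sub_image pr hsub
  have c2 : ltp id X ⊆ (ltp Prod.fst S).image pr := by
    intro e he
    obtain ⟨a, b, c⟩ := mem_ltp.mp he
    obtain ⟨p, hp, e1⟩ := mem_image.mp a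
    obtain ⟨q, hq, e2⟩ := mem_image.mp b
    exact mem_image.mpr ⟨(p, q), mem_ltp.mpr ⟨hp, hq, by simpa [e1, e2] using c⟩, Prod.ext e1 e2⟩
  have c3 := card_le_card c2
  have c4 := card_union_add_card_inter (lay S P h) (lay S P h')
  have c5 := card_union_add_card_inter ((lay S P h).image pr) ((lay S P h').image pr)
  rw [← image_union] at c5
  have c6 := card_le_card (image_inter_subset pr (lay S P h) (lay S P h'))
  have ends : ∀ i ∈ lay S P h ∩ lay S P h',
      (i.1.2 = h ∧ i.2.2 = h') ∨ (i.1.2 = h' ∧ i.2.2 = h) := by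
    intro i hi
    obtain ⟨⟨a, b, c⟩, w, hw, e⟩ := mem_lay.mp (mem_inter.mp hi).1
    obtain ⟨-, w', hw', e'⟩ := mem_lay.mp (mem_inter.mp hi).2
    obtain ⟨_, T, -, h2, h3⟩ := (hS.geo _ a _ b fun e => c.ne (e ▸ rfl)).proj hG hH
    have h4 := h2.two hH (h3 w hw).2 (h3 w' hw').2
    rw [e, e'] at h4
    have h5 := hmax' i.1.2 i.2.2
    rcases h4 with h4 | h4
    · exact Or.inl ⟨hH.dist_eq_zero_iff.mp (by omega), (hH.dist_eq_zero_iff.mp (by omega)).symm⟩
    · exact Or.inr ⟨hH.dist_eq_zero_iff.mp (by omega), (hH.dist_eq_zero_iff.mp (by omega)).symm⟩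
  have c7 : (lay S P h ∩ lay S P h').card ≤
      ((lay S P h ∩ lay S P h').image pr).card + (ltp id A).card := by
    set K := lay S P h ∩ lay S P h' with hK
    have d1 := card_filter_add_card_filter_not (s := K) (fun i => i.1.2 = h ∧ pr i ∈ ltp id A)
    have d2 : (K.filter fun i => i.1.2 = h ∧ pr i ∈ ltp id A).card ≤ (ltp id A).card := by
      refine card_le_card_of_injOn pr (fun i hi => (mem_filter.mp hi).2.2) ?_
      intro i hi j hj e
      obtain ⟨i1, i2, -⟩ := mem_filter.mp hi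
      obtain ⟨j1, j2, -⟩ := mem_filter.mp hj
      have i3 := (ends i i1).resolve_right fun c => hh (i2.symm.trans c.1)
      have j3 := (ends j j1).resolve_right fun c => hh (j2.symm.trans c.1)
      exact pr_ext e (i2.trans j2.symm) (i3.2.trans j3.2.symm)
    have mix : ∀ i ∈ K, ∀ j ∈ K, pr i = pr j → i.1.2 = h → i.2.2 = h' → j.1.2 = h' → j.2.2 = h →
        pr i ∈ ltp id A := by
      intro i hi j hj e a1 a2 a3 a4
      obtain ⟨⟨i1, i2, i3⟩, -⟩ := mem_lay.mp (mem_inter.mp hi).1
      obtain ⟨⟨j1, j2, -⟩, -⟩ := mem_lay.mp (mem_inter.mp hj).1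
      have e1 : i.1.1 = j.1.1 := (Prod.mk.inj e).1
      have e2 : i.2.1 = j.2.1 := (Prod.mk.inj e).2
      refine mem_ltp.mpr ⟨mem_filter.mpr ⟨mem_image_of_mem _ i1, ?_, ?_⟩,
        mem_filter.mpr ⟨mem_image_of_mem _ i2, ?_, ?_⟩, i3⟩
      · rw [← a1]
        exact i1
      · rw [← a3]
        exact (show (i.1.1, j.1.2) = j.1 from Prod.ext e1 rfl) ▸ j1
      · rw [← a4]
        exact (show (i.2.1, j.2.2) = j.2 from Prod.ext e2 rfl) ▸ j2
      · rw [← a2]
        exact i2
    have d3 : (K.filter fun i => ¬ (i.1.2 = h ∧ pr i ∈ ltp id A)).card ≤ (K.image pr).card := by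
      refine card_le_card_of_injOn pr (fun i hi => mem_image_of_mem _ (mem_filter.mp hi).1) ?_
      intro i hi j hj e
      obtain ⟨i1, i2⟩ := mem_filter.mp hi
      obtain ⟨j1, j2⟩ := mem_filter.mp hj
      rcases ends i i1 with a | a <;> rcases ends j j1 with b | b
      · exact pr_ext e (a.1.trans b.1.symm) (a.2.trans b.2.symm)
      · exact absurd ⟨a.1, mix i i1 j j1 e a.1 a.2 b.1 b.2⟩ i2
      · exact absurd ⟨b.1, mix j j1 i i1 e.symm b.1 b.2 a.1 a.2⟩ j2
      · exact pr_ext e (a.1.trans b.1.symm) (a.2.trans b.2.symm)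
    omega
  have e1 := ltp_count Prod.fst S
  have e2 := eqp_count Prod.fst S
  have e3 := ltp_id X
  have e4 := ltp_id A
  have e5 : A.card ≤ X.card := card_filter_le _ _
  have e6 : X.card + A.card ≤ S.card := card_add_le S hh
  rw [← hX] at b1 b2 e2
  exact arith e5 e6 (by omega)

theorem arith2 {g s k a c : ℕ} (h1 : g + a ≤ k + a * c) (h2 : k + a ≤ s) (h3 : a ≤ c)
    (h4 : 2 * c ≤ s) : g ≤ max s ((s / 2) ^ 2 + s % 2) := by
  have h5 : c ≤ s / 2 := by omega
  have h6 := Nat.div_add_mod s 2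
  generalize s / 2 = t at *
  generalize s % 2 = r at *
  have h7 : a * c ≤ a * t := Nat.mul_le_mul_left _ h5
  by_cases h8 : 2 ≤ t
  · refine le_max_of_le_right ?_
    obtain ⟨u, rfl⟩ := Nat.exists_eq_add_of_le h8
    have : a * u ≤ (2 + u) * u := Nat.mul_le_mul_right _ (by omega)
    linarith only [h1, h2, h6, h7, this]
  · refine le_max_of_le_left ?_
    have : a * t ≤ a * 1 := Nat.mul_le_mul_left _ (by omega)
    omega

theorem two_layers [LinearOrder V] [DecidableEq W] [Nontrivial V] (hG : G.Connected)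
    (hH : H.Connected) {S : Finset (V × W)} {P : Sym2 (V × W) → Set (V × W)} (hS : Sys G H S P)
    {h h' : W} (hh : h ≠ h') (hall : ∀ i, i = h ∨ i = h')
    (hle : 2 * (S.filter fun p => p.2 = h).card ≤ S.card) :
    sg G ≤ max S.card ((S.card / 2) ^ 2 + S.card % 2) := by
  have e6 := card_add_le S hh
  set X := S.image Prod.fst with hX
  set A := X.filter fun x => (x, h) ∈ S ∧ (x, h') ∈ S with hA
  set L := S.filter fun p => p.2 = h with hL
  set J := (ltp Prod.fst S).filter fun i =>
    (i.1.2 = h' ∧ i.1.1 ∈ A ∧ i.2.2 = h) ∨ (i.2.2 = h' ∧ i.2.1 ∈ A ∧ i.1.2 = h) with hJ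
  have notb : ∀ i ∈ lay S P h, i.1.2 = h' → i.2.2 = h := by
    intro i hi a
    refine (hall _).resolve_right fun b => hh ?_
    obtain ⟨⟨i1, i2, c⟩, w, hw, e⟩ := mem_lay.mp hi
    obtain ⟨_, T, -, h2, h3⟩ := (hS.geo _ i1 _ i2 fun e => c.ne (e ▸ rfl)).proj hG hH
    have h4 := h2.one hH (h3 w hw).2
    rw [e, a, b, dist_self] at h4
    exact hH.dist_eq_zero_iff.mp (by omega)
  have memA : ∀ p ∈ S, ∀ q ∈ S, p.1 = q.1 → p.2 = h' → q.2 = h → p.1 ∈ A := by
    intro p hp q hq e a b
    refine mem_filter.mpr ⟨mem_image_of_mem _ hp, ?_, ?_⟩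
    · rw [e, ← b]
      exact hq
    · rw [← a]
      exact hp
  have one : ∀ i ∈ lay S P h, i ∉ J → ∀ j ∈ lay S P h, pr i = pr j →
      (i.1.2 = h' → j.1.2 = h') ∧ (i.2.2 = h' → j.2.2 = h') := by
    intro i hi a j hj e
    have i0 := (mem_lay.mp hi).1
    have j0 := (mem_lay.mp hj).1
    constructor
    · intro b
      refine (hall _).resolve_left fun c => a (mem_filter.mpr ⟨mem_ltp.mpr i0, Or.inl ?_⟩)
      exact ⟨b, memA _ i0.1 _ j0.1 (Prod.mk.inj e).1 b c, notb i hi b⟩
    · intro b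
      refine (hall _).resolve_left fun c => a (mem_filter.mpr ⟨mem_ltp.mpr i0, Or.inr ?_⟩)
      exact ⟨b, memA _ i0.2.1 _ j0.2.1 (Prod.mk.inj e).2 b c,
        (hall _).resolve_right fun d => hh ((notb i hi d).symm.trans b)⟩
  have same : ∀ a b : W, (a = h' → b = h') → (b = h' → a = h') → a = b := by
    intro a b c d
    rcases hall a with rfl | e
    · rcases hall b with f | f
      · exact f.symm
      · exact absurd (d f) hh
    · exact e.trans (c e).symm
  have b1 := layer_le hG hH hS h J fun i hi a j hj b e =>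
    pr_ext e (same _ _ (one i hi a j hj e).1 (one j hj b i hi e.symm).1)
      (same _ _ (one i hi a j hj e).2 (one j hj b i hi e.symm).2)
  have d1 := card_filter_add_card_filter_not (s := A ×ˢ L) (fun e => e.1 = e.2.1)
  have d2 : A.card ≤ ((A ×ˢ L).filter fun e => e.1 = e.2.1).card :=
    card_le_card_of_injOn (fun x => (x, (x, h)))
      (fun x hx => mem_filter.mpr
        ⟨mem_product.mpr ⟨hx, mem_filter.mpr ⟨(mem_filter.mp hx).2.1, rfl⟩⟩, rfl⟩)
      fun _ _ _ _ e => congrArg Prod.fst e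
  have d3 : J.card ≤ ((A ×ˢ L).filter fun e => ¬ e.1 = e.2.1).card := by
    have cases : ∀ i ∈ J, (i.1 ∈ S ∧ i.2 ∈ S ∧ i.1.1 < i.2.1) ∧
        ((i.1.2 = h' ∧ i.1.1 ∈ A ∧ i.2.2 = h) ∨
          (¬ i.1.2 = h' ∧ i.2.2 = h' ∧ i.2.1 ∈ A ∧ i.1.2 = h)) := fun i hi =>
      ⟨mem_ltp.mp (mem_filter.mp hi).1, (mem_filter.mp hi).2.imp id
        fun c => ⟨fun d => hh (c.2.2.symm.trans d), c⟩⟩
    refine card_le_card_of_injOn
      (fun i => if i.1.2 = h' then (i.1.1, i.2) else (i.2.1, i.1)) (fun i hi => ?_) ?_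
    · obtain ⟨⟨i1, i2, i3⟩, c | c⟩ := cases i hi
      · simp only [if_pos c.1]
        exact mem_filter.mpr ⟨mem_product.mpr ⟨c.2.1, mem_filter.mpr ⟨i2, c.2.2⟩⟩, i3.ne⟩
      · simp only [if_neg c.1]
        exact mem_filter.mpr ⟨mem_product.mpr ⟨c.2.2.1, mem_filter.mpr ⟨i1, c.2.2.2⟩⟩, i3.ne'⟩
    · intro i hi j hj e
      obtain ⟨⟨-, -, i3⟩, c | c⟩ := cases i hi <;> obtain ⟨⟨-, -, j3⟩, d | d⟩ := cases j hj
      · simp only [if_pos c.1, if_pos d.1, Prod.mk.injEq] at e
        exact Prod.ext (Prod.ext e.1 (c.1.trans d.1.symm)) e.2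
      · simp only [if_pos c.1, if_neg d.1, Prod.mk.injEq] at e
        rw [e.1, e.2] at i3
        exact absurd i3 j3.not_gt
      · simp only [if_neg c.1, if_pos d.1, Prod.mk.injEq] at e
        rw [e.1, e.2] at i3
        exact absurd i3 j3.not_gt
      · simp only [if_neg c.1, if_neg d.1, Prod.mk.injEq] at e
        exact Prod.ext e.2 (Prod.ext e.1 (c.2.1.trans d.2.1.symm))
  have d4 : A.card ≤ L.card :=
    card_le_card_of_injOn (fun x => (x, h))
      (fun x hx => mem_filter.mpr ⟨(mem_filter.mp hx).2.1, rfl⟩)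
      fun _ _ _ _ e => congrArg Prod.fst e
  rw [card_product] at d1
  rw [← hX] at b1
  exact arith2 (k := X.card) (a := A.card) (c := L.card) (by omega) e6 d4 hle

theorem prism [Fintype V] [Nontrivial V] (hG : G.Connected) :
    sg G ≤ max (sg (G.boxProd (⊤ : SimpleGraph (Fin 2))))
      ((sg (G.boxProd (⊤ : SimpleGraph (Fin 2))) / 2) ^ 2 +
        sg (G.boxProd (⊤ : SimpleGraph (Fin 2))) % 2) := by
  let _ : LinearOrder V := LinearOrder.lift' (Fintype.equivFin V) (Fintype.equivFin V).injective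
  have hH : (⊤ : SimpleGraph (Fin 2)).Connected := connected_top
  obtain ⟨S, hcard, P, g1, g2⟩ := exists_opt (hG.boxProd hH)
  have hS : Sys G ⊤ S P := ⟨g1, g2⟩
  rw [← hcard]
  have d1 := card_filter_add_card_filter_not (s := S) (fun p => p.2 = 0)
  have d2 : (S.filter fun p => ¬ p.2 = 0) = S.filter fun p => p.2 = 1 :=
    filter_congr fun p _ => by omega
  rw [d2] at d1
  by_cases c : 2 * (S.filter fun p => p.2 = 0).card ≤ S.card
  · exact two_layers hG hH hS (h' := 1) (by decide) (by decide) c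
  · exact two_layers hG hH hS (h := 1) (h' := 0) (by decide) (by decide) (by omega)

end part2

section part3


section bip

variable {X Y : Type}

theorem bip_walk [Nonempty X] [Nonempty Y] (u v : X ⊕ Y) :
    ∃ p : (completeBipartiteGraph X Y).Walk u v, p.length ≤ 2 := by
  obtain ⟨x0⟩ := ‹Nonempty X›
  obtain ⟨y0⟩ := ‹Nonempty Y›
  rcases u with u | u <;> rcases v with v | v
  · exact ⟨Walk.cons (v := Sum.inr y0) (by simp) (Walk.cons (by simp) Walk.nil), le_rfl⟩
  · exact ⟨Walk.cons (by simp) Walk.nil, by simp⟩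
  · exact ⟨Walk.cons (by simp) Walk.nil, by simp⟩
  · exact ⟨Walk.cons (v := Sum.inl x0) (by simp) (Walk.cons (by simp) Walk.nil), le_rfl⟩

theorem bip_conn [Nonempty X] [Nonempty Y] : (completeBipartiteGraph X Y).Connected :=
  ⟨fun u v => let ⟨p, _⟩ := bip_walk u v; ⟨p⟩⟩

theorem bip_dist [Nonempty X] [Nonempty Y] (u v : X ⊕ Y) :
    (completeBipartiteGraph X Y).dist u v ≤ 2 :=
  let ⟨p, hp⟩ := bip_walk u v; (dist_le p).trans hp

theorem sum_nontrivial [Nonempty X] [Nonempty Y] : Nontrivial (X ⊕ Y) :=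
  ⟨⟨Sum.inl (Classical.arbitrary X), Sum.inr (Classical.arbitrary Y), Sum.inl_ne_inr⟩⟩

theorem bip_lower [Fintype X] [Fintype Y] [Nonempty X] [Nonempty Y] :
    ∃ p ≤ Fintype.card X,
      Fintype.card Y + p ≤ sg (completeBipartiteGraph X Y) + p.choose 2 := by
  classical
  have hG := bip_conn (X := X) (Y := Y)
  have := sum_nontrivial (X := X) (Y := Y)
  obtain ⟨S, hcard, P, g1, g2⟩ := exists_opt hG
  refine ⟨S.toLeft.card, card_le_univ _, ?_⟩
  have pos : ∀ u v : X ⊕ Y, u ≠ v → 0 < (completeBipartiteGraph X Y).dist u v :=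
    fun u v h => hG.pos_dist_of_ne h
  have h1 : ∀ y, y ∉ S.toRight → ∃ x ∈ S.toLeft, ∃ x' ∈ S.toLeft, x ≠ x' ∧
      Sum.inr y ∈ P s(Sum.inl x, Sum.inl x') := by
    intro y hy
    rw [mem_toRight] at hy
    obtain ⟨u, hu, v, hv, huv, hm⟩ := g2 (Sum.inr y)
    have a1 := (g1 u hu v hv huv).one hG hm
    have a2 := bip_dist u v
    have a3 := pos u (Sum.inr y) fun e => hy (e ▸ hu)
    have a4 := pos (Sum.inr y) v fun e => hy (e ▸ hv)
    have a5 := dist_eq_one_iff_adj.mp
      (show (completeBipartiteGraph X Y).dist u (Sum.inr y) = 1 by omega)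
    have a6 := dist_eq_one_iff_adj.mp
      (show (completeBipartiteGraph X Y).dist (Sum.inr y) v = 1 by omega)
    rcases u with u | u
    · rcases v with v | v
      · exact ⟨u, mem_toLeft.mpr hu, v, mem_toLeft.mpr hv, fun e => huv (e ▸ rfl), hm⟩
      · simp at a6
    · simp at a5
  have h2 : ∀ y, ∃ e : Sym2 X, y ∉ S.toRight → e ∈ S.toLeft.offDiag.image Sym2.mk.uncurry ∧
      Sum.inr y ∈ P (e.map Sum.inl) := by
    intro y
    by_cases hy : y ∈ S.toRight
    · obtain ⟨x0⟩ := ‹Nonempty X›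
      exact ⟨s(x0, x0), fun h => absurd hy h⟩
    · obtain ⟨x, hx, x', hx', hne, hm⟩ := h1 y hy
      exact ⟨s(x, x'), fun _ =>
        ⟨mem_image.mpr ⟨(x, x'), mem_offDiag.mpr ⟨hx, hx', hne⟩, rfl⟩, hm⟩⟩
  choose e he using h2
  have h3 : (univ \ S.toRight).card ≤ (S.toLeft.offDiag.image Sym2.mk.uncurry).card := by
    refine card_le_card_of_injOn e (fun y hy => (he y (mem_sdiff.mp hy).2).1) ?_
    intro y hy y' hy' hyy
    obtain ⟨a1, a2⟩ := he y (mem_sdiff.mp hy).2
    obtain ⟨-, a3⟩ := he y' (mem_sdiff.mp hy').2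
    obtain ⟨⟨x, x'⟩, a4, a5⟩ := mem_image.mp a1
    obtain ⟨b1, b2, b3⟩ := mem_offDiag.mp a4
    rw [← hyy] at a3
    rw [← a5] at a2 a3
    have a6 := (g1 _ (mem_toLeft.mp b1) _ (mem_toLeft.mp b2)
      fun c => b3 (Sum.inl.inj c)).two hG a2 a3
    by_contra hne
    have c0 := bip_dist (X := X) (Y := Y) (Sum.inl x) (Sum.inl x')
    have c1 := pos (Sum.inl x) (Sum.inr y) (by simp)
    have c2 := pos (Sum.inl x) (Sum.inr y') (by simp)
    have c3 := pos (Sum.inr y) (Sum.inl x') (by simp)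
    have c4 := pos (Sum.inr y') (Sum.inl x') (by simp)
    have c5 := pos (Sum.inr y) (Sum.inr y') (by simpa using hne)
    dsimp only at a6
    omega
  rw [Sym2.card_image_offDiag] at h3
  have h4 := card_sdiff_add_card_eq_card (subset_univ S.toRight)
  have h5 := card_toLeft_add_card_toRight (u := S)
  rw [card_univ] at h4
  omega

end bip

theorem two_choose (n : ℕ) : 2 * n.choose 2 + n = n * n := by
  induction n with
  | zero => simp
  | succ n ih =>
    rw [Nat.choose_succ_succ' n 1, Nat.choose_one_right]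
    linarith only [ih]

theorem bip_upper (a r : ℕ) (ha : 3 ≤ a) :
    sg ((completeBipartiteGraph (Fin a) (Fin (3 * a.choose 2 + r))).boxProd
      (⊤ : SimpleGraph (Fin 2))) ≤ 2 * a + r := by
  classical
  have hc := two_choose a
  have : Nonempty (Fin a) := ⟨⟨0, by omega⟩⟩
  have : Nonempty (Fin (3 * a.choose 2 + r)) := ⟨⟨0, by nlinarith⟩⟩
  have hG := bip_conn (X := Fin a) (Y := Fin (3 * a.choose 2 + r))
  have hH : (⊤ : SimpleGraph (Fin 2)).Connected := connected_top
  have hP : (ltp id (univ : Finset (Fin a))).card = a.choose 2 := by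
    have := ltp_id (univ : Finset (Fin a))
    rw [card_univ, Fintype.card_fin] at this
    omega
  obtain ⟨τ⟩ : Nonempty ((ltp id (univ : Finset (Fin a)) × Fin 3) ⊕ Fin r ≃
      Fin (3 * a.choose 2 + r)) := Fintype.card_eq.mp (by simp only [Fintype.card_sum, Fintype.card_prod, Fintype.card_coe, hP, Fintype.card_fin, mul_comm, Nat.add_left_cancel_iff])
  have path : ∀ (x x' : Fin a) (c c' : Fin 2) (y : Fin (3 * a.choose 2 + r)), ∃ T, x ≠ x' →
      IsGeodesic ((completeBipartiteGraph (Fin a) (Fin (3 * a.choose 2 + r))).boxProd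
        (⊤ : SimpleGraph (Fin 2))) (Sum.inl x, c) (Sum.inl x', c') T ∧
        (Sum.inr y, c) ∈ T ∧ (Sum.inr y, c') ∈ T := by
    intro x x' c c' y
    by_cases hne : x = x'
    · exact ⟨∅, fun h => absurd hne h⟩
    have b1 := hG.one_lt_dist_of_ne_of_not_adj (u := Sum.inl x) (v := Sum.inl x')
      (by simpa using hne) (by simp)
    have b2 := dist_eq_one_iff_adj.mpr (show (completeBipartiteGraph (Fin a)
      (Fin (3 * a.choose 2 + r))).Adj (Sum.inl x) (Sum.inr y) by simp)
    have b3 := dist_eq_one_iff_adj.mpr (show (completeBipartiteGraph (Fin a)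
      (Fin (3 * a.choose 2 + r))).Adj (Sum.inr y) (Sum.inl x') by simp)
    obtain ⟨T, hT⟩ := geo_through (hG.boxProd hH) (x := (Sum.inl x, c)) (v := (Sum.inr y, c))
      (w := (Sum.inr y, c')) (y := (Sum.inl x', c')) (by
        simp only [dist_box hG hH, dist_self]
        omega)
    exact ⟨T, fun _ => hT⟩
  choose T hT using path
  let x0 : Fin a := ⟨0, by omega⟩
  let x1 : Fin a := ⟨1, by omega⟩
  have h01 : x0 ≠ x1 := by simp [x0, x1]
  have lt : ∀ e : ltp id (univ : Finset (Fin a)), e.1.1 < e.1.2 := fun e => (mem_ltp.mp e.2).2.2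
  have main := sg_le (hG.boxProd hH)
    (ι := (ltp id (univ : Finset (Fin a)) × Fin 2 × Fin 2) ⊕ Fin r)
    ((univ.map Function.Embedding.inl) ×ˢ univ) (by simp; omega) univ
    (univ.map Function.Embedding.inr)
    (Sum.elim (fun i => (Sum.inl i.1.1.1, i.2.1)) fun _ => (Sum.inl x0, 0))
    (Sum.elim (fun i => (Sum.inl i.1.1.2, i.2.2)) fun _ => (Sum.inl x1, 1))
    (Sum.elim (fun i => T i.1.1.1 i.1.1.2 i.2.1 i.2.2
      (τ (Sum.inl (i.1, if i.2.1 = i.2.2 then 0 else if i.2.1 = 0 then 1 else 2))))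
      fun j => T x0 x1 0 1 (τ (Sum.inr j)))
    (by rintro (i | j) - <;> simp only [Fin.isValue, Sum.elim_inl, mem_product, mem_map, mem_univ, Function.Embedding.inl_apply, Sum.inl.injEq, true_and, exists_eq, and_self, Sum.elim_inr]) (by rintro (i | j) - <;> simp only [Fin.isValue, Sum.elim_inl, mem_product, mem_map, mem_univ, Function.Embedding.inl_apply, Sum.inl.injEq, true_and, exists_eq, and_self, Sum.elim_inr])
    (by
      rintro (i | j) -
      · simp [(lt i.1).ne]
      · simp)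
    (by
      rintro (i | j) -
      · exact (hT _ _ _ _ _ (lt i.1).ne).1
      · exact (hT _ _ _ _ _ h01).1)
    (by
      rintro ⟨x | y, c⟩
      · left
        simp
      · right
        obtain ⟨⟨e, j⟩ | j, rfl⟩ := τ.surjective y
        · have key := fun c c' y => (hT e.1.1 e.1.2 c c' y (lt e).ne).2
          fin_cases j
          · exact ⟨Sum.inl (e, c, c), mem_univ _, by simpa using (key c c _).1⟩
          · refine ⟨Sum.inl (e, 0, 1), mem_univ _, ?_⟩
            fin_cases c
            · simpa using (key 0 1 _).1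
            · simpa using (key 0 1 _).2
          · refine ⟨Sum.inl (e, 1, 0), mem_univ _, ?_⟩
            fin_cases c
            · simpa using (key 1 0 _).2
            · simpa using (key 1 0 _).1
        · refine ⟨Sum.inr j, mem_univ _, ?_⟩
          fin_cases c
          · simpa using (hT x0 x1 0 1 _ h01).2.1
          · simpa using (hT x0 x1 0 1 _ h01).2.2)
    (by
      rintro (i | i) - hi (j | j) - hj e
      · have c1 := lt i.1
        have c2 := lt j.1
        simp only [Sum.elim_inl, Sym2.eq_iff, Prod.mk.injEq, Sum.inl.injEq] at e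
        rcases e with ⟨⟨e1, e2⟩, e3, e4⟩ | ⟨⟨e1, -⟩, e3, -⟩
        · rw [Sum.inl.injEq]
          exact Prod.ext (Subtype.ext (Prod.ext e1 e3)) (Prod.ext e2 e4)
        · rw [e1, e3] at c1
          exact absurd c1 c2.not_gt
      · simp only [mem_map, mem_univ, Function.Embedding.inr_apply, Sum.inr.injEq, true_and, exists_eq, not_true_eq_false] at hj
      · simp only [mem_map, mem_univ, Function.Embedding.inr_apply, Sum.inr.injEq, true_and, exists_eq, not_true_eq_false] at hi
      · simp only [mem_map, mem_univ, Function.Embedding.inr_apply, Sum.inr.injEq, true_and, exists_eq, not_true_eq_false] at hi)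
  simp only [card_product, card_map, card_univ, Fintype.card_fin] at main
  omega

theorem sharp (s : ℕ) (hs : 6 ≤ s) :
    sg ((completeBipartiteGraph (Fin (s / 2)) (Fin (3 * (s / 2).choose 2 + s % 2))).boxProd
      (⊤ : SimpleGraph (Fin 2))) = s ∧
    sg (completeBipartiteGraph (Fin (s / 2)) (Fin (3 * (s / 2).choose 2 + s % 2))) =
      (s / 2) ^ 2 + s % 2 := by
  have h1 := Nat.div_add_mod s 2
  have h2 : s % 2 ≤ 1 := by omega
  have ha : 3 ≤ s / 2 := by omega
  generalize s / 2 = a at *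
  generalize s % 2 = r at *
  have hc := two_choose a
  have : Nonempty (Fin a) := ⟨⟨0, by omega⟩⟩
  have : Nonempty (Fin (3 * a.choose 2 + r)) := ⟨⟨0, by nlinarith only [ha, hc]⟩⟩
  have b1 := bip_upper a r ha
  obtain ⟨p, b2, b3⟩ := bip_lower (X := Fin a) (Y := Fin (3 * a.choose 2 + r))
  have := sum_nontrivial (X := Fin a) (Y := Fin (3 * a.choose 2 + r))
  have b4 := prism (bip_conn (X := Fin a) (Y := Fin (3 * a.choose 2 + r)))
  simp only [Fintype.card_fin] at b2 b3
  generalize sg ((completeBipartiteGraph (Fin a) (Fin (3 * a.choose 2 + r))).boxProd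
    (⊤ : SimpleGraph (Fin 2))) = t at *
  generalize sg (completeBipartiteGraph (Fin a) (Fin (3 * a.choose 2 + r))) = g at *
  have hp := two_choose p
  have b5 : a * a + r ≤ g := by
    obtain ⟨b, rfl⟩ := Nat.exists_eq_add_of_le b2
    have : b * 3 ≤ b * (p + b) := Nat.mul_le_mul_left _ ha
    nlinarith only [hp, hc, b3, this]
  have b6 : 3 * a ≤ a * a := Nat.mul_le_mul_right _ ha
  have b7 : t = s := by
    by_contra hne
    rcases le_max_iff.mp b4 with c | c
    · omega
    · by_cases d : t / 2 = a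
      · rw [d, sq] at c
        omega
      · have d2 : t / 2 + 1 ≤ a := by omega
        have d3 : t % 2 ≤ 1 := by omega
        have := Nat.mul_le_mul d2 d2
        have d4 : 1 ≤ t / 2 := by
          by_contra d5
          have : t / 2 = 0 := by omega
          rw [this] at c
          omega
        linarith only [b5, c, d3, this, d4]
  refine ⟨b7, ?_⟩
  have e1 : t / 2 = a := by omega
  have e2 : t % 2 = r := by omega
  rw [e1, e2, sq] at b4
  rw [sq]
  rcases le_max_iff.mp b4 with c | c <;> omega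

end part3

end Pool.Agent.MP_8400ad_co
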